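import Mathlib
import Pool.Agent.Helper425.FA.Coh

set_option autoImplicit false

/-!
# Coherent injections and the chains they define

The finite sets `F e n a` of the predecessors of `a` with number at most `n`, the chains `C e n a`,
and the relation `Good e n b a`: `b` is in the chain of `a` and the two chains agree up to `b`.
-/

namespace Pool.Agent.Q213.JF

open Set Pool.Agent.Helper425.FA

/-- a coherent family of injections on the countable ordinals -/
def Coh (e : W1 → W1 → ℕ) : Prop :=
  (∀ c, Set.InjOn (e c) (Set.Iio c)) ∧ ∀ b c, b < c → {x | x < b ∧ e b x ≠ e c x}.Finite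

theorem exists_coh : ∃ e : W1 → W1 → ℕ, Coh e := by
  classical
  obtain ⟨g, hg1, hg2⟩ := ci_finite_to_one
  let c : W1 → W1 → ℕ := fun γ x => Set.ncard {η | η < x ∧ g γ η = g γ x}
  have hfin : ∀ γ x, x ≤ γ → {η | η < x ∧ g γ η = g γ x}.Finite := by
    intro γ x hx
    exact (hg1 γ (g γ x)).subset (fun η hη => ⟨hη.1.le.trans hx, hη.2.le⟩)
  let e : W1 → W1 → ℕ := fun γ x => Nat.pair (g γ x) (c γ x)
  have hlt : ∀ γ x y, x < y → y ≤ γ → g γ x = g γ y → c γ x < c γ y := by
    intro γ x y hxy hy hgxy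
    apply Set.ncard_lt_ncard _ (hfin γ y hy)
    rw [Set.ssubset_iff_of_subset]
    · exact ⟨x, ⟨hxy, hgxy⟩, fun h => lt_irrefl _ h.1⟩
    · intro η hη
      exact ⟨hη.1.trans hxy, hη.2.trans hgxy⟩
  refine ⟨e, ?_, ?_⟩
  · intro γ x hx y hy hxy
    have h1 : Nat.pair (g γ x) (c γ x) = Nat.pair (g γ y) (c γ y) := hxy
    rw [Nat.pair_eq_pair] at h1
    obtain ⟨h2, h3⟩ := h1
    rcases lt_trichotomy x y with h | h | h
    · have := hlt γ x y h (le_of_lt hy) h2
      omega
    · exact h
    · have := hlt γ y x h (le_of_lt hx) h2.symm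
      omega
  · intro α γ h
    have hD := hg2 γ α h
    set D := {x | x ≤ α ∧ g α x ≠ g γ x} with hDdef
    have hV : (g α '' D ∪ g γ '' D).Finite := (hD.image _).union (hD.image _)
    obtain ⟨M, hM⟩ := hV.bddAbove
    refine (hD.union (hg1 α M)).subset ?_
    rintro x ⟨hx, hne⟩
    by_cases hxD : x ∈ D
    · left; exact hxD
    · right
      refine ⟨hx.le, ?_⟩
      by_contra hcon
      have hgx : g α x = g γ x := by
        by_contra h'
        exact hxD ⟨hx.le, h'⟩
      apply hne
      have hset : {η | η < x ∧ g γ η = g γ x} = {η | η < x ∧ g α η = g α x} := by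
        ext η
        simp only [Set.mem_ofPred_eq]
        constructor
        · rintro ⟨h1, h2⟩
          refine ⟨h1, ?_⟩
          by_contra h3
          have hηD : η ∈ D := by
            refine ⟨(h1.trans hx).le, ?_⟩
            intro h4
            apply h3
            rw [h4, h2, hgx]
          have h5 := hM (Or.inr ⟨η, hηD, rfl⟩)
          apply hcon
          rw [hgx, ← h2]
          exact h5
        · rintro ⟨h1, h2⟩
          refine ⟨h1, ?_⟩
          by_contra h3
          have hηD : η ∈ D := by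
            refine ⟨(h1.trans hx).le, ?_⟩
            intro h4
            apply h3
            rw [← h4, h2, hgx]
          have h5 := hM (Or.inl ⟨η, hηD, rfl⟩)
          apply hcon
          rw [← h2]
          exact h5
      show Nat.pair (g α x) (Set.ncard {η | η < x ∧ g α η = g α x}) =
        Nat.pair (g γ x) (Set.ncard {η | η < x ∧ g γ η = g γ x})
      rw [hset, hgx]

/-- the predecessors of `a` with number at most `n` -/
theorem F_finite {e : W1 → W1 → ℕ} (he : Coh e) (n : ℕ) (a : W1) :
    {x | x < a ∧ e a x ≤ n}.Finite := by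
  have h1 : (e a '' {x | x < a ∧ e a x ≤ n}).Finite := by
    refine (Set.finite_Iic n).subset ?_
    rintro _ ⟨x, hx, rfl⟩
    exact hx.2
  exact h1.of_finite_image ((he.1 a).mono (fun x hx => hx.1))

open Classical in
/-- the chain of `a` at level `n`: `a` and its predecessors with number at most `n` -/
noncomputable def C (e : W1 → W1 → ℕ) (n : ℕ) (a : W1) : Finset W1 :=
  if h : {x | x < a ∧ e a x ≤ n}.Finite then insert a h.toFinset else {a}

theorem mem_C {e : W1 → W1 → ℕ} (he : Coh e) (n : ℕ) (a x : W1) :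
    x ∈ C e n a ↔ x = a ∨ (x < a ∧ e a x ≤ n) := by
  unfold C
  rw [dif_pos (F_finite he n a)]
  simp

theorem self_mem_C {e : W1 → W1 → ℕ} (he : Coh e) (n : ℕ) (a : W1) : a ∈ C e n a := by
  rw [mem_C he]; exact Or.inl rfl

theorem le_of_mem_C {e : W1 → W1 → ℕ} (he : Coh e) {n : ℕ} {a x : W1} (h : x ∈ C e n a) : x ≤ a := by
  rw [mem_C he] at h
  rcases h with h | h
  · exact h.le
  · exact h.1.le

theorem C_mono {e : W1 → W1 → ℕ} (he : Coh e) {m n : ℕ} (h : m ≤ n) (a : W1) :
    C e m a ⊆ C e n a := by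
  intro x hx
  rw [mem_C he] at hx ⊢
  rcases hx with hx | hx
  · exact Or.inl hx
  · exact Or.inr ⟨hx.1, hx.2.trans h⟩

theorem card_C {e : W1 → W1 → ℕ} (he : Coh e) (n : ℕ) (a : W1) : (C e n a).card ≤ n + 2 := by
  classical
  unfold C
  rw [dif_pos (F_finite he n a)]
  refine (Finset.card_insert_le _ _).trans ?_
  have h1 : (F_finite he n a).toFinset.card ≤ (Finset.range (n + 1)).card := by
    apply Finset.card_le_card_of_injOn (e a)
    · intro x hx
      have hx' := (F_finite he n a).mem_toFinset.1 hx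
      have : e a x ≤ n := hx'.2
      simp only [Finset.coe_range, Set.mem_Iio]
      omega
    · intro x hx y hy hxy
      have hx' := (F_finite he n a).mem_toFinset.1 hx
      have hy' := (F_finite he n a).mem_toFinset.1 hy
      exact he.1 a hx'.1 hy'.1 hxy
  rw [Finset.card_range] at h1
  omega

/-- `b` is in the chain of `a`, and the chains agree up to `b` -/
def Good (e : W1 → W1 → ℕ) (n : ℕ) (b a : W1) : Prop :=
  b ∈ C e n a ∧ ∀ x, x ≤ b → (x ∈ C e n b ↔ x ∈ C e n a)

theorem good_eventually {e : W1 → W1 → ℕ} (he : Coh e) {b a : W1} (hba : b < a) :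
    ∃ N, ∀ n, N ≤ n → Good e n b a := by
  classical
  have hD := he.2 b a hba
  obtain ⟨M, hM⟩ := ((hD.image (e b)).union (hD.image (e a))).bddAbove
  refine ⟨max M (e a b), ?_⟩
  intro n hn
  have hnM : M ≤ n := (le_max_left _ _).trans hn
  have hnb : e a b ≤ n := (le_max_right _ _).trans hn
  refine ⟨(mem_C he n a b).2 (Or.inr ⟨hba, hnb⟩), ?_⟩
  intro x hx
  rw [mem_C he, mem_C he]
  rcases eq_or_lt_of_le hx with h | h
  · subst h
    constructor
    · intro _; exact Or.inr ⟨hba, hnb⟩
    · intro _; exact Or.inl rfl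
  · have hxa : x < a := h.trans hba
    by_cases hxD : e b x = e a x
    · constructor
      · rintro (h1 | h1)
        · exact absurd h1 h.ne
        · exact Or.inr ⟨hxa, hxD ▸ h1.2⟩
      · rintro (h1 | h1)
        · exact absurd h1 hxa.ne
        · exact Or.inr ⟨h, hxD ▸ h1.2⟩
    · have hxD' : x ∈ {x | x < b ∧ e b x ≠ e a x} := ⟨h, hxD⟩
      have h1 : e b x ≤ n := (hM (Or.inl ⟨x, hxD', rfl⟩)).trans hnM
      have h2 : e a x ≤ n := (hM (Or.inr ⟨x, hxD', rfl⟩)).trans hnM
      constructor
      · intro _; exact Or.inr ⟨hxa, h2⟩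
      · intro _; exact Or.inr ⟨h, h1⟩

theorem good_self {e : W1 → W1 → ℕ} (he : Coh e) (n : ℕ) (a : W1) : Good e n a a :=
  ⟨self_mem_C he n a, fun _ _ => Iff.rfl⟩

end Pool.Agent.Q213.JF
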