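import Mathlib
import Pool.Agent.Q213.JF.A

set_option autoImplicit false

/-!
# The sets `S a` and the tower `cc d`

A point of `W` is a triple `(n, p, t)`, `t` a finite antichain of types of precision `p`; it is in
`S a` if `p` is at most `f a n` and the type of the chain of `a` at level `n` is in `t`.
-/

namespace Pool.Agent.Q213.JF

open Set Pool.Agent.Helper425.FA Classical

/-- the rank of `x` in the finite set `s` -/
noncomputable def rk (s : Finset W1) (x : W1) : ℕ := (s.filter (fun y => y < x)).card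

theorem rk_lt_card {s : Finset W1} {x : W1} (hx : x ∈ s) : rk s x < s.card := by
  apply Finset.card_lt_card
  rw [Finset.ssubset_iff_of_subset (Finset.filter_subset _ _)]
  exact ⟨x, hx, by simp⟩

theorem rk_strict {s : Finset W1} {x y : W1} (hx : x ∈ s) (h : x < y) : rk s x < rk s y := by
  apply Finset.card_lt_card
  rw [Finset.ssubset_iff_of_subset]
  · exact ⟨x, by simp [hx, h], by simp⟩
  · intro z hz
    simp only [Finset.mem_filter] at hz ⊢
    exact ⟨hz.1, hz.2.trans h⟩

theorem rk_inj {s : Finset W1} {x y : W1} (hx : x ∈ s) (hy : y ∈ s) (h : rk s x = rk s y) :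
    x = y := by
  rcases lt_trichotomy x y with h1 | h1 | h1
  · have := rk_strict hx h1; omega
  · exact h1
  · have := rk_strict hy h1; omega

theorem exists_rk {s : Finset W1} {k : ℕ} (hk : k < s.card) : ∃ x ∈ s, rk s x = k := by
  have h1 : s.image (rk s) ⊆ Finset.range s.card := by
    intro m hm
    rw [Finset.mem_image] at hm
    obtain ⟨x, hx, rfl⟩ := hm
    exact Finset.mem_range.2 (rk_lt_card hx)
  have h2 : (s.image (rk s)).card = s.card :=
    Finset.card_image_of_injOn (fun x hx y hy h => rk_inj hx hy h)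
  have h3 : s.image (rk s) = Finset.range s.card := by
    apply Finset.eq_of_subset_of_card_le h1
    rw [Finset.card_range, h2]
  have h4 : k ∈ s.image (rk s) := by rw [h3]; exact Finset.mem_range.2 hk
  rw [Finset.mem_image] at h4
  exact h4

/-- the first `p` bits of the set `A` -/
noncomputable def cut (p : ℕ) (A : Set ℕ) : Finset ℕ := (Finset.range p).filter (fun i => i ∈ A)

theorem cut_ne {A B : Set ℕ} (h : A ≠ B) : ∃ N, ∀ p, N ≤ p → cut p A ≠ cut p B := by
  by_contra hcon
  push Not at hcon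
  apply h
  ext i
  obtain ⟨p, hp, he⟩ := hcon (i + 1)
  have h1 : i ∈ cut p A ↔ i ∈ cut p B := by rw [he]
  unfold cut at h1
  simp only [Finset.mem_filter, Finset.mem_range] at h1
  have h2 : i < p := by omega
  tauto

/-- the type of `a` at level `n` with precision `p` -/
noncomputable def Th (e : W1 → W1 → ℕ) (r : W1 → Set ℕ) (p n : ℕ) (a : W1) :
    Finset (ℕ × Finset ℕ) :=
  (C e n a).image (fun x => (rk (C e n a) x, cut p (r x)))

/-- the finite set of possible types -/
def PP (n p : ℕ) : Finset (Finset (ℕ × Finset ℕ)) :=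
  ((Finset.range (n + 2)) ×ˢ (Finset.range p).powerset).powerset

/-- the countable underlying set -/
abbrev W : Type := ℕ × ℕ × Finset (Finset (ℕ × Finset ℕ))

/-- antichains of types -/
def Anti (t : Finset (Finset (ℕ × Finset ℕ))) : Prop := ∀ u ∈ t, ∀ v ∈ t, u ⊆ v → u = v

/-- the sets of the almost disjoint family -/
def S (e : W1 → W1 → ℕ) (r : W1 → Set ℕ) (f : W1 → ℕ → ℕ) (a : W1) : Set W :=
  {x | x.2.1 ≤ f a x.1 ∧ x.2.2 ⊆ PP x.1 x.2.1 ∧ Anti x.2.2 ∧ Th e r x.2.1 x.1 a ∈ x.2.2}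

/-- the tower -/
def cc (e : W1 → W1 → ℕ) (r : W1 → Set ℕ) (d : W1) : Set W :=
  {x | ∃ v ∈ x.2.2, v ⊂ Th e r x.2.1 x.1 d}

variable {e : W1 → W1 → ℕ} {r : W1 → Set ℕ} {f : W1 → ℕ → ℕ}

theorem Th_mem_PP (he : Coh e) (p n : ℕ) (a : W1) : Th e r p n a ∈ PP n p := by
  unfold PP Th
  rw [Finset.mem_powerset]
  intro y hy
  rw [Finset.mem_image] at hy
  obtain ⟨x, hx, rfl⟩ := hy
  rw [Finset.mem_product]
  constructor
  · have h1 := rk_lt_card hx
    have h2 := card_C he n a
    exact Finset.mem_range.2 (by show rk (C e n a) x < n + 2; omega)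
  · rw [Finset.mem_powerset]
    exact Finset.filter_subset _ _

theorem rk_good {n : ℕ} {b a x : W1} (h : Good e n b a) (hx : x ≤ b) :
    rk (C e n b) x = rk (C e n a) x := by
  unfold rk
  congr 1
  ext y
  simp only [Finset.mem_filter]
  constructor
  · rintro ⟨h1, h2⟩
    exact ⟨(h.2 y (h2.le.trans hx)).1 h1, h2⟩
  · rintro ⟨h1, h2⟩
    exact ⟨(h.2 y (h2.le.trans hx)).2 h1, h2⟩

theorem mem_Th {p n : ℕ} {a x : W1} (hx : x ∈ C e n a) :
    (rk (C e n a) x, cut p (r x)) ∈ Th e r p n a := by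
  unfold Th
  exact Finset.mem_image.2 ⟨x, hx, rfl⟩

theorem Th_fun {p n : ℕ} {a : W1} {k : ℕ} {u v : Finset ℕ} (hu : (k, u) ∈ Th e r p n a)
    (hv : (k, v) ∈ Th e r p n a) : u = v := by
  unfold Th at hu hv
  rw [Finset.mem_image] at hu hv
  obtain ⟨x, hx, hxe⟩ := hu
  obtain ⟨y, hy, hye⟩ := hv
  rw [Prod.mk.injEq] at hxe hye
  have : x = y := rk_inj hx hy (by rw [hxe.1, hye.1])
  rw [← hxe.2, ← hye.2, this]

theorem Th_subset (he : Coh e) {p n : ℕ} {b a : W1} (h : Good e n b a) :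
    Th e r p n b ⊆ Th e r p n a := by
  intro y hy
  unfold Th at hy
  rw [Finset.mem_image] at hy
  obtain ⟨x, hx, rfl⟩ := hy
  have hxb := le_of_mem_C he hx
  rw [rk_good h hxb]
  exact mem_Th ((h.2 x hxb).1 hx)

theorem Th_ssubset (he : Coh e) {p n : ℕ} {b a : W1} (h : Good e n b a) (hba : b < a) :
    Th e r p n b ⊂ Th e r p n a := by
  rw [Finset.ssubset_iff_of_subset (Th_subset he h)]
  refine ⟨_, mem_Th (self_mem_C he n a), ?_⟩
  intro hcon
  unfold Th at hcon
  rw [Finset.mem_image] at hcon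
  obtain ⟨x, hx, hxe⟩ := hcon
  rw [Prod.mk.injEq] at hxe
  have hxb := le_of_mem_C he hx
  have h1 := hxe.1
  rw [rk_good h hxb] at h1
  have h2 := rk_inj ((h.2 x hxb).1 hx) (self_mem_C he n a) h1
  exact absurd (h2 ▸ hxb) (not_le.2 hba)

theorem level_finite (N : ℕ) (a : W1) : {x | x ∈ S e r f a ∧ x.1 < N}.Finite := by
  have h1 : (⋃ n ∈ Finset.range N, ⋃ p ∈ Finset.range (f a n + 1),
      ((fun t => ((n, p, t) : W)) '' ((PP n p).powerset : Set (Finset (Finset (ℕ × Finset ℕ)))))).Finite := by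
    refine Set.Finite.biUnion (Finset.finite_toSet _) (fun n _ => ?_)
    refine Set.Finite.biUnion (Finset.finite_toSet _) (fun p _ => ?_)
    exact (Finset.finite_toSet _).image _
  refine h1.subset ?_
  rintro ⟨n, p, t⟩ ⟨⟨h2, h3, _, _⟩, h5⟩
  simp only [Set.mem_iUnion]
  refine ⟨n, Finset.mem_range.2 h5, p, Finset.mem_range.2 (Nat.lt_succ_of_le h2), t, ?_, rfl⟩
  exact Finset.mem_coe.2 (Finset.mem_powerset.2 h3)

theorem S_infinite (he : Coh e) (a : W1) : (S e r f a).Infinite := by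
  have h1 : Set.range (fun n : ℕ => ((n, 0, {Th e r 0 n a}) : W)) ⊆ S e r f a := by
    rintro _ ⟨n, rfl⟩
    refine ⟨Nat.zero_le _, ?_, ?_, ?_⟩
    · intro u hu
      rw [Finset.mem_singleton.1 hu]
      exact Th_mem_PP he 0 n a
    · intro u hu v hv _
      rw [Finset.mem_singleton.1 hu, Finset.mem_singleton.1 hv]
    · exact Finset.mem_singleton_self _
  refine (Set.infinite_range_of_injective ?_).mono h1
  intro m n hmn
  exact congrArg Prod.fst hmn

theorem tower1 (he : Coh e) {b d : W1} (h : b < d) : (S e r f b \ cc e r d).Finite := by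
  obtain ⟨N, hN⟩ := good_eventually he h
  refine (level_finite (e := e) (r := r) (f := f) N b).subset ?_
  rintro x ⟨hx, hxc⟩
  refine ⟨hx, ?_⟩
  by_contra hcon
  apply hxc
  exact ⟨_, hx.2.2.2, Th_ssubset he (hN x.1 (not_lt.1 hcon)) h⟩

theorem tower2 (he : Coh e) {d a : W1} (h : d ≤ a) : (S e r f a ∩ cc e r d).Finite := by
  rcases eq_or_lt_of_le h with h | h
  · subst h
    convert Set.finite_empty
    rw [Set.eq_empty_iff_forall_notMem]
    rintro x ⟨hx, v, hv, hvs⟩
    exact hvs.ne (hx.2.2.1 v hv _ hx.2.2.2 hvs.subset)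
  · obtain ⟨N, hN⟩ := good_eventually he h
    refine (level_finite (e := e) (r := r) (f := f) N a).subset ?_
    rintro x ⟨hx, v, hv, hvs⟩
    refine ⟨hx, ?_⟩
    by_contra hcon
    have h1 : Th e r x.2.1 x.1 d ⊂ Th e r x.2.1 x.1 a := Th_ssubset he (hN x.1 (not_lt.1 hcon)) h
    have h2 := hvs.trans h1
    exact h2.ne (hx.2.2.1 v hv _ hx.2.2.2 h2.subset)

theorem S_ad (he : Coh e) {a b : W1} (h : a ≠ b) : (S e r f a ∩ S e r f b).Finite := by
  have key : ∀ a b : W1, a < b → (S e r f a ∩ S e r f b).Finite := by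
    intro a b hab
    refine ((tower1 (r := r) (f := f) he hab).union (tower2 (r := r) (f := f) he (le_refl b))).subset ?_
    rintro x ⟨h1, h2⟩
    by_cases hx : x ∈ cc e r b
    · exact Or.inr ⟨h2, hx⟩
    · exact Or.inl ⟨h1, hx⟩
  rcases lt_or_gt_of_ne h with h | h
  · exact key a b h
  · rw [Set.inter_comm]; exact key b a h

end Pool.Agent.Q213.JF
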