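import Mathlib
import Pool.Agent.Q213.JF.B

set_option autoImplicit false

/-!
# Common points for uncountable sets

If the functions `f a` are increasing and no uncountable subfamily is bounded, then for uncountable
sets `X 0, …, X (N - 1)` there is a point of arbitrarily high level which belongs to some `S a`,
`a ∈ X i`, for every `i < N`.
-/

namespace Pool.Agent.Q213.JF

open Set Pool.Agent.Helper425.FA Classical

variable {e : W1 → W1 → ℕ} {r : W1 → Set ℕ} {f : W1 → ℕ → ℕ}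

theorem W1_uncountable : ¬ (Set.univ : Set W1).Countable := by
  intro h
  have h1 : Countable W1 := Set.countable_univ_iff.1 h
  have h2 := Cardinal.mk_le_aleph0_iff.2 h1
  rw [Cardinal.mk_toType, Cardinal.card_ord] at h2
  exact absurd h2 (not_le.2 Cardinal.aleph0_lt_aleph_one)

theorem Iic_countable (a : W1) : (Set.Iic a).Countable := by
  have : Set.Iic a = insert a (Set.Iio a) := by
    ext x; simp [le_iff_eq_or_lt]
  rw [this]
  exact (ci_countable a).insert a

theorem exists_bound {s : Set W1} (hs : s.Countable) : ∃ z, ∀ x ∈ s, x < z := by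
  by_contra hcon
  push Not at hcon
  apply W1_uncountable
  have h1 : (⋃ x ∈ s, Set.Iic x).Countable := hs.biUnion (fun x _ => Iic_countable x)
  refine h1.mono ?_
  intro z _
  obtain ⟨x, hx, hzx⟩ := hcon z
  rw [Set.mem_iUnion₂]
  exact ⟨x, hx, hzx⟩

theorem exists_block {X : Set W1} (hX : ¬ X.Countable) (z : W1) :
    ∃ z', z < z' ∧ (X ∩ Set.Ioo z z').Infinite := by
  have h1 : (X ∩ Set.Ioi z).Infinite := by
    intro hfin
    apply hX
    refine (hfin.countable.union (Iic_countable z)).mono ?_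
    intro x hx
    rcases le_or_gt x z with h | h
    · exact Or.inr h
    · exact Or.inl ⟨hx, h⟩
  have h2 : ∃ s : Set W1, s ⊆ X ∩ Set.Ioi z ∧ s.Infinite ∧ s.Countable := by
    obtain ⟨g, hg⟩ : ∃ g : ℕ → W1, Function.Injective g ∧ ∀ n, g n ∈ X ∩ Set.Ioi z := by
      have := h1.to_subtype
      let g := Infinite.natEmbedding (X ∩ Set.Ioi z : Set W1)
      exact ⟨fun n => (g n : W1), fun a b hab => g.injective (Subtype.ext hab), fun n => (g n).2⟩
    refine ⟨Set.range g, ?_, Set.infinite_range_of_injective hg.1, Set.countable_range g⟩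
    rintro _ ⟨n, rfl⟩
    exact hg.2 n
  obtain ⟨s, hs1, hs2, hs3⟩ := h2
  obtain ⟨z', hz'⟩ := exists_bound hs3
  obtain ⟨x, hx⟩ := hs2.nonempty
  refine ⟨z', (hs1 hx).2.trans (hz' x hx), hs2.mono ?_⟩
  intro y hy
  exact ⟨(hs1 hy).1, (hs1 hy).2, hz' y hy⟩

theorem exists_blocks (X : ℕ → Set W1) (hX : ∀ i, ¬ (X i).Countable) :
    ∃ Y : ℕ → Set W1, (∀ i, (Y i).Infinite ∧ Y i ⊆ X i) ∧
      ∀ i j, i < j → ∀ x ∈ Y i, ∀ y ∈ Y j, x < y := by
  obtain ⟨w⟩ : Nonempty W1 := by
    by_contra h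
    rw [not_nonempty_iff] at h
    exact W1_uncountable (Set.toFinite _).countable
  choose g hg1 hg2 using fun i z => exists_block (hX i) z
  let z : ℕ → W1 := fun n => Nat.rec w (fun i v => g i v) n
  have hz : ∀ i, z (i + 1) = g i (z i) := fun i => rfl
  have hmono : StrictMono z := strictMono_nat_of_lt_succ (fun i => by rw [hz]; exact hg1 i (z i))
  refine ⟨fun i => X i ∩ Set.Ioo (z i) (z (i + 1)), ?_, ?_⟩
  · intro i
    refine ⟨?_, Set.inter_subset_left⟩
    exact hg2 i (z i)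
  · intro i j hij x hx y hy
    exact (hx.2.2.trans_le (hmono.monotone (by omega : i + 1 ≤ j))).trans hy.2.1

theorem exists_free (n : ℕ) (Y : ℕ → Set W1) (hY : ∀ i, (Y i).Infinite) (N : ℕ) :
    ∀ E : Finset W1, ∃ d : ℕ → W1, (∀ i, i < N → d i ∈ Y i ∧ d i ∉ E) ∧
      ∀ i j, i < j → j < N → d i ∉ C e n (d j) := by
  induction N with
  | zero =>
    intro E
    obtain ⟨x, _⟩ := (hY 0).nonempty
    exact ⟨fun _ => x, fun i hi => absurd hi (Nat.not_lt_zero _), fun i j _ hj => absurd hj (Nat.not_lt_zero _)⟩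
  | succ N ih =>
    intro E
    obtain ⟨y, hy, hyE⟩ := (hY N).exists_notMem_finset E
    obtain ⟨d, hd1, hd2⟩ := ih (E ∪ C e n y)
    refine ⟨fun i => if i = N then y else d i, ?_, ?_⟩
    · intro i hi
      by_cases hiN : i = N
      · simp only [hiN, if_true]
        exact ⟨hy, hyE⟩
      · simp only [hiN, if_false]
        have h1 := hd1 i (by omega)
        exact ⟨h1.1, fun h => h1.2 (Finset.mem_union_left _ h)⟩
    · intro i j hij hj
      have hiN : i ≠ N := by omega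
      simp only [hiN, if_false]
      by_cases hjN : j = N
      · simp only [hjN, if_true]
        exact fun h => (hd1 i (by omega)).2 (Finset.mem_union_right _ h)
      · simp only [hjN, if_false]
        exact hd2 i j hij (by omega)

theorem diverge (he : Coh e) {n : ℕ} {a b : W1} (hab : a < b) (h : a ∉ C e n b) :
    ∃ x y, x ∈ C e n a ∧ y ∈ C e n b ∧ rk (C e n a) x = rk (C e n b) y ∧ x ≠ y := by
  rcases le_or_gt (C e n a).card (C e n b).card with hc | hc
  · have h1 := rk_lt_card (self_mem_C he n a)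
    obtain ⟨y, hy, hyk⟩ := exists_rk (lt_of_lt_of_le h1 hc)
    refine ⟨a, y, self_mem_C he n a, hy, hyk.symm, ?_⟩
    intro hay
    exact h (hay ▸ hy)
  · have h1 := rk_lt_card (self_mem_C he n b)
    obtain ⟨x, hx, hxk⟩ := exists_rk (lt_trans h1 hc)
    refine ⟨x, b, hx, self_mem_C he n b, hxk, ?_⟩
    intro hxb
    have := le_of_mem_C he hx
    rw [hxb] at this
    exact absurd this (not_le.2 hab)

/-- the functions are increasing and no uncountable subfamily is bounded -/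
def Unb (f : W1 → ℕ → ℕ) : Prop :=
  (∀ a, Monotone (f a)) ∧
    ∀ Y : Set W1, ¬ Y.Countable → ∀ g : ℕ → ℕ, ∀ m, ∃ a ∈ Y, ∃ n, m ≤ n ∧ g n < f a n

theorem stepA1 (he : Coh e) (hf : Unb f) {X : Set W1} (hX : ¬ X.Countable) (d : W1) :
    ∃ m, ∀ n, m ≤ n → ∀ p, ∃ a ∈ X, d < a ∧ Good e n d a ∧ p ≤ f a n := by
  have h1 : ∃ N, ¬ {a | a ∈ X ∧ d < a ∧ ∀ n, N ≤ n → Good e n d a}.Countable := by
    by_contra hcon
    push Not at hcon
    apply hX
    refine ((Set.countable_iUnion hcon).union (Iic_countable d)).mono ?_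
    intro a ha
    rcases le_or_gt a d with h | h
    · exact Or.inr h
    · left
      obtain ⟨N, hN⟩ := good_eventually he h
      exact Set.mem_iUnion.2 ⟨N, ha, h, hN⟩
  obtain ⟨N, hN⟩ := h1
  set Y := {a | a ∈ X ∧ d < a ∧ ∀ n, N ≤ n → Good e n d a} with hY
  have h2 : ∃ m, N ≤ m ∧ ∀ p, ∃ a ∈ Y, p ≤ f a m := by
    by_contra hcon
    push Not at hcon
    have h3 : ∀ m, ∃ p, N ≤ m → ∀ a ∈ Y, f a m < p := by
      intro m
      by_cases hm : N ≤ m
      · obtain ⟨p, hp⟩ := hcon m hm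
        exact ⟨p, fun _ => hp⟩
      · exact ⟨0, fun h => absurd h hm⟩
    choose g hg using h3
    obtain ⟨a, ha, n, hn, hgn⟩ := hf.2 Y hN g N
    have := hg n hn a ha
    omega
  obtain ⟨m, hNm, hm⟩ := h2
  refine ⟨m, fun n hn p => ?_⟩
  obtain ⟨a, ha, hp⟩ := hm p
  exact ⟨a, ha.1, ha.2.1, ha.2.2 n (hNm.trans hn), hp.trans (hf.1 a hn)⟩

theorem stepA (he : Coh e) (hf : Unb f) {X : Set W1} (hX : ¬ X.Countable) :
    ∃ m, ∃ D : Set W1, ¬ D.Countable ∧ ∀ d ∈ D, ∀ n, m ≤ n → ∀ p,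
      ∃ a ∈ X, d < a ∧ Good e n d a ∧ p ≤ f a n := by
  choose m hm using fun d => stepA1 he hf hX d
  have h1 : ∃ k, ¬ {d | m d = k}.Countable := by
    by_contra hcon
    push Not at hcon
    apply W1_uncountable
    refine (Set.countable_iUnion hcon).mono ?_
    intro d _
    exact Set.mem_iUnion.2 ⟨m d, rfl⟩
  obtain ⟨k, hk⟩ := h1
  refine ⟨k, {d | m d = k}, hk, ?_⟩
  intro d hd n hn p
  exact hm d n (by rw [show m d = k from hd]; exact hn) p

theorem key (he : Coh e) (hf : Unb f) (hr : Function.Injective r) (N : ℕ) (X : ℕ → Set W1)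
    (hX : ∀ i, ¬ (X i).Countable) (k : ℕ) :
    ∃ x : W, k ≤ x.1 ∧ ∀ i, i < N → ∃ a ∈ X i, x ∈ S e r f a := by
  choose m D hD1 hD2 using fun i => stepA he hf (hX i)
  let n := max k ((Finset.range N).sup m)
  have hkn : k ≤ n := le_max_left _ _
  have hmn : ∀ i, i < N → m i ≤ n := fun i hi =>
    (Finset.le_sup (f := m) (Finset.mem_range.2 hi)).trans (le_max_right _ _)
  obtain ⟨Y, hY1, hY2⟩ := exists_blocks D hD1
  obtain ⟨d, hd1, hd2⟩ := exists_free (e := e) n Y (fun i => (hY1 i).1) N ∅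
  have hdlt : ∀ i j, i < j → j < N → d i < d j := fun i j hij hj =>
    hY2 i j hij _ (hd1 i (hij.trans hj)).1 _ (hd1 j hj).1
  have hdiv : ∀ i j, ∃ P, ∀ p, P ≤ p → i < j → j < N → ∃ x y, x ∈ C e n (d i) ∧ y ∈ C e n (d j) ∧
      rk (C e n (d i)) x = rk (C e n (d j)) y ∧ cut p (r x) ≠ cut p (r y) := by
    intro i j
    by_cases h : i < j ∧ j < N
    · obtain ⟨x, y, hx, hy, hxy, hne⟩ := diverge he (hdlt i j h.1 h.2) (hd2 i j h.1 h.2)
      obtain ⟨P, hP⟩ := cut_ne (fun h' => hne (hr h'))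
      exact ⟨P, fun p hp _ _ => ⟨x, y, hx, hy, hxy, hP p hp⟩⟩
    · exact ⟨0, fun p _ h1 h2 => absurd ⟨h1, h2⟩ h⟩
  choose P hP using hdiv
  let p := (Finset.range N ×ˢ Finset.range N).sup (fun q => P q.1 q.2)
  have hPp : ∀ i j, i < N → j < N → P i j ≤ p := fun i j hi hj =>
    Finset.le_sup (f := fun q : ℕ × ℕ => P q.1 q.2)
      (Finset.mk_mem_product (Finset.mem_range.2 hi) (Finset.mem_range.2 hj))
  have hex : ∀ i, ∃ a, i < N → a ∈ X i ∧ d i < a ∧ Good e n (d i) a ∧ p ≤ f a n := by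
    intro i
    by_cases hi : i < N
    · obtain ⟨a, h1, h2⟩ := hD2 i (d i) ((hY1 i).2 (hd1 i hi).1) n (hmn i hi) p
      exact ⟨a, fun _ => ⟨h1, h2⟩⟩
    · exact ⟨d i, fun h => absurd h hi⟩
  choose a ha using hex
  let t := (Finset.range N).image (fun i => Th e r p n (a i))
  refine ⟨(n, p, t), hkn, ?_⟩
  -- two different types are not comparable
  have hne : ∀ i j, i < j → j < N → ∃ c u v, (c, u) ∈ Th e r p n (a i) ∧
      (c, v) ∈ Th e r p n (a j) ∧ u ≠ v := by
    intro i j hij hj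
    have hi : i < N := hij.trans hj
    obtain ⟨x, y, hx, hy, hxy, hcut⟩ := hP i j p (hPp i j hi hj) hij hj
    refine ⟨rk (C e n (d i)) x, cut p (r x), cut p (r y), ?_, ?_, hcut⟩
    · exact Th_subset he (ha i hi).2.2.1 (mem_Th hx)
    · rw [hxy]
      exact Th_subset he (ha j hj).2.2.1 (mem_Th hy)
  have hanti : Anti t := by
    intro u hu v hv huv
    simp only [t, Finset.mem_image, Finset.mem_range] at hu hv
    obtain ⟨i, hi, rfl⟩ := hu
    obtain ⟨j, hj, rfl⟩ := hv
    rcases lt_trichotomy i j with h | h | h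
    · obtain ⟨c, u, v, hu, hv, huv'⟩ := hne i j h hj
      exact absurd (Th_fun (huv hu) hv) huv'
    · rw [h]
    · obtain ⟨c, u, v, hu, hv, huv'⟩ := hne j i h hi
      exact absurd (Th_fun hu (huv hv)) huv'
  intro i hi
  refine ⟨a i, (ha i hi).1, (ha i hi).2.2.2, ?_, hanti, ?_⟩
  · intro u hu
    simp only [t, Finset.mem_image, Finset.mem_range] at hu
    obtain ⟨j, _, rfl⟩ := hu
    exact Th_mem_PP he p n (a j)
  · exact Finset.mem_image.2 ⟨i, Finset.mem_range.2 hi, rfl⟩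

end Pool.Agent.Q213.JF
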