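import Mathlib
import Pool.Agent.Q213.JF.C

set_option autoImplicit false

/-!
# Almost disjoint families, gaps, and the two cases

Definitions: `ADF A` (almost disjoint family of infinite sets), `Separated n L` and `SepInter n L`
(the two notions of a separated tuple of families), `Insep`, `InsepInter`, `JonesF`, and `BddAll`:
every family of at most `ℵ₁` functions is bounded modulo finite.
-/

namespace Pool.Agent.Q213.JF

open Set Pool.Agent.Helper425.FA Classical Cardinal

/-- almost disjoint family of infinite sets of natural numbers -/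
def ADF (A : Set (Set ℕ)) : Prop :=
  (∀ X ∈ A, X.Infinite) ∧ ∀ X ∈ A, ∀ Y ∈ A, X ≠ Y → (X ∩ Y).Finite

/-- there are sets `c i` such that for every `i` each member of `L i` is almost contained in `c i`,
and `c i` is almost disjoint from every member of `L j`, `j ≠ i` -/
def Separated (n : ℕ) (L : Fin n → Set (Set ℕ)) : Prop :=
  ∃ c : Fin n → Set ℕ, ∀ i, (∀ X ∈ L i, (X \ c i).Finite) ∧
    ∀ j, j ≠ i → ∀ X ∈ L j, (c i ∩ X).Finite

/-- there are sets `c i` with finite intersection such that each member of `L i` is almost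
contained in `c i` -/
def SepInter (n : ℕ) (L : Fin n → Set (Set ℕ)) : Prop :=
  ∃ c : Fin n → Set ℕ, (∀ i, ∀ X ∈ L i, (X \ c i).Finite) ∧ (⋂ i, c i).Finite

/-- no tuple of `n` pairwise disjoint subfamilies of cardinality `ℵ₁` is separated -/
def Insep (n : ℕ) (A : Set (Set ℕ)) : Prop :=
  ∀ L : Fin n → Set (Set ℕ), (∀ i, L i ⊆ A) → (∀ i j, i ≠ j → Disjoint (L i) (L j)) →
    (∀ i, #(L i) = ℵ₁) → ¬ Separated n L

/-- the same with the second notion of separation -/
def InsepInter (n : ℕ) (A : Set (Set ℕ)) : Prop :=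
  ∀ L : Fin n → Set (Set ℕ), (∀ i, L i ⊆ A) → (∀ i j, i ≠ j → Disjoint (L i) (L j)) →
    (∀ i, #(L i) = ℵ₁) → ¬ SepInter n L

/-- Jones families -/
def JonesF (A : Set (Set ℕ)) : Prop :=
  ∀ L R : Set (Set ℕ), L ⊆ A → R ⊆ A → Disjoint L R → L.Countable → L.Infinite → #R = ℵ₁ →
    ∃ c : Set ℕ, (∀ X ∈ L, (X \ c).Finite) ∧ ∀ Y ∈ R, (c ∩ Y).Finite

/-- every family of at most `ℵ₁` functions is bounded modulo finite, i.e. `𝔟 > ℵ₁` -/
def BddAll : Prop :=
  ∀ G : Set (ℕ → ℕ), #G ≤ ℵ₁ → ∃ h : ℕ → ℕ, ∀ g ∈ G, ∃ m, ∀ n, m ≤ n → g n ≤ h n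

/-- if `𝔟 > ℵ₁` every almost disjoint family is Jones -/
theorem jones_of_bddAll (hB : BddAll) {A : Set (Set ℕ)} (hA : ADF A) : JonesF A := by
  intro L R hL hR hLR hLc hLi hRc
  obtain ⟨l, hl⟩ := hLc.exists_eq_range hLi.nonempty
  have hlL : ∀ j, l j ∈ L := fun j => by rw [hl]; exact ⟨j, rfl⟩
  have hfin : ∀ X ∈ R, ∀ j, (X ∩ l j).Finite := by
    intro X hX j
    apply hA.2 X (hR hX) (l j) (hL (hlL j))
    intro h
    exact Set.disjoint_left.1 hLR (hlL j) (h ▸ hX)
  have hb : ∀ X ∈ R, ∀ j, ∃ N, ∀ x ∈ X ∩ l j, x < N := by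
    intro X hX j
    obtain ⟨M, hM⟩ := (hfin X hX j).bddAbove
    exact ⟨M + 1, fun x hx => Nat.lt_succ_of_le (hM hx)⟩
  choose! N hN using hb
  obtain ⟨h, hh⟩ := hB (N '' R) (by
    refine (Cardinal.mk_image_le).trans ?_
    rw [hRc])
  refine ⟨⋃ j, (l j \ Set.Iio (h j)), ?_, ?_⟩
  · intro X hX
    rw [hl] at hX
    obtain ⟨j, rfl⟩ := hX
    refine (Set.finite_Iio (h j)).subset ?_
    rintro x ⟨hx, hxc⟩
    by_contra hcon
    exact hxc (Set.mem_iUnion.2 ⟨j, hx, hcon⟩)
  · intro Y hY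
    obtain ⟨m, hm⟩ := hh (N Y) ⟨Y, hY, rfl⟩
    have h1 : (⋃ j ∈ Finset.range m, (Y ∩ l j)).Finite :=
      Set.Finite.biUnion (Finset.finite_toSet _) (fun j _ => hfin Y hY j)
    refine h1.subset ?_
    rintro x ⟨hxc, hxY⟩
    obtain ⟨j, hxj, hxh⟩ := Set.mem_iUnion.1 hxc
    have h2 : x < N Y j := hN Y hY j x ⟨hxY, hxj⟩
    simp only [Set.mem_Iio, not_lt] at hxh
    have h3 : j < m := by
      by_contra hcon
      have := hm j (not_lt.1 hcon)
      omega
    simp only [Set.mem_iUnion]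
    exact ⟨j, Finset.mem_range.2 h3, hxY, hxj⟩

/-- from an unbounded family of size `ℵ₁` to increasing functions on the countable ordinals -/
theorem exists_unb {e : W1 → W1 → ℕ} (he : Coh e) (hB : ¬ BddAll) : ∃ f : W1 → ℕ → ℕ, Unb f := by
  unfold BddAll at hB
  push Not at hB
  obtain ⟨G, hG, hGu⟩ := hB
  have hGne : G.Nonempty := by
    obtain ⟨g, hg, _⟩ := hGu 0
    exact ⟨g, hg⟩
  have hW : #W1 = ℵ₁ := by rw [Cardinal.mk_toType, Cardinal.card_ord]
  obtain ⟨g, hg⟩ : ∃ g : W1 → (ℕ → ℕ), G ⊆ Set.range g := by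
    have h1 : #G ≤ #W1 := by rw [hW]; exact hG
    obtain ⟨i⟩ := Cardinal.le_def _ _ |>.1 h1
    obtain ⟨g0, hg0⟩ := hGne
    have : Nonempty G := ⟨⟨g0, hg0⟩⟩
    refine ⟨fun a => (Function.invFun i a : G), ?_⟩
    intro x hx
    exact ⟨i ⟨x, hx⟩, by simp [Function.leftInverse_invFun i.injective ⟨x, hx⟩]⟩
  refine ⟨fun a n => (C e n a ×ˢ Finset.range (n + 1)).sup (fun q => g q.1 q.2), ?_, ?_⟩
  · intro a m n hmn
    apply Finset.sup_mono
    apply Finset.product_subset_product (C_mono he hmn a)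
    intro x hx
    rw [Finset.mem_range] at hx ⊢
    omega
  · intro Y hY h m
    by_contra hcon
    push Not at hcon
    obtain ⟨G0, hG0, hG0u⟩ := hGu h
    obtain ⟨b, rfl⟩ := hg hG0
    obtain ⟨a, haY, hba⟩ : ∃ a ∈ Y, b < a := by
      by_contra hc
      push Not at hc
      exact hY ((Iic_countable b).mono (fun x hx => hc x hx))
    obtain ⟨N, hN⟩ := good_eventually he hba
    obtain ⟨n, hn, hlt⟩ := hG0u (max m N)
    have h1 := hcon a haY n ((le_max_left _ _).trans hn)
    have h2 : g b n ≤ (C e n a ×ˢ Finset.range (n + 1)).sup (fun q => g q.1 q.2) :=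
      Finset.le_sup (f := fun q : W1 × ℕ => g q.1 q.2)
        (Finset.mk_mem_product (hN n ((le_max_right _ _).trans hn)).1
          (Finset.mem_range.2 (Nat.lt_succ_self n)))
    omega

/-- the set of natural numbers coding `S a` -/
def TT (e : W1 → W1 → ℕ) (r : W1 → Set ℕ) (f : W1 → ℕ → ℕ) (a : W1) : Set ℕ :=
  (Encodable.encode : W → ℕ) '' S e r f a

variable {e : W1 → W1 → ℕ} {r : W1 → Set ℕ} {f : W1 → ℕ → ℕ}

theorem TT_infinite (he : Coh e) (a : W1) : (TT e r f a).Infinite :=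
  (S_infinite he a).image Encodable.encode_injective.injOn

theorem TT_ad (he : Coh e) {a b : W1} (h : a ≠ b) : (TT e r f a ∩ TT e r f b).Finite := by
  unfold TT
  rw [← Set.image_inter Encodable.encode_injective]
  exact (S_ad he h).image _

theorem TT_inj (he : Coh e) : Function.Injective (TT e r f) := by
  intro a b hab
  by_contra hne
  have h1 := TT_ad (r := r) (f := f) he hne
  rw [hab, Set.inter_self] at h1
  exact TT_infinite he b h1

theorem TT_ADF (he : Coh e) : ADF (Set.range (TT e r f)) := by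
  refine ⟨?_, ?_⟩
  · rintro _ ⟨a, rfl⟩
    exact TT_infinite he a
  · rintro _ ⟨a, rfl⟩ _ ⟨b, rfl⟩ h
    exact TT_ad he (fun hab => h (hab ▸ rfl))

theorem TT_card (he : Coh e) : #(Set.range (TT e r f)) = ℵ₁ := by
  rw [Cardinal.mk_range_eq _ (TT_inj he), Cardinal.mk_toType, Cardinal.card_ord]

theorem TT_jones (he : Coh e) : JonesF (Set.range (TT e r f)) := by
  intro L R hL hR hLR hLc _ _
  have hinj := TT_inj (r := r) (f := f) he
  -- the countable set of indices of `L`
  have hLi : (TT e r f ⁻¹' L).Countable := hLc.preimage hinj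
  obtain ⟨d, hd⟩ := exists_bound hLi
  have hed : Set.InjOn (e d) (Set.Iio d) := he.1 d
  have hfinlt : ∀ m, {x | x < d ∧ e d x ≤ m}.Finite := fun m => F_finite he m d
  -- the separating set
  let q : Set ℕ := {x | ∃ a, a < d ∧ TT e r f a ∈ L ∧ x ∈ TT e r f a ∧
    ∀ b, b < d → TT e r f b ∈ R → e d b ≤ e d a → x ∉ TT e r f b}
  have hne : ∀ a b, TT e r f a ∈ L → TT e r f b ∈ R → a ≠ b := by
    intro a b ha hb hab
    exact Set.disjoint_left.1 hLR ha (hab ▸ hb)
  refine ⟨q ∩ (Encodable.encode : W → ℕ) '' cc e r d, ?_, ?_⟩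
  · intro X hX
    obtain ⟨a, rfl⟩ := hL hX
    have had : a < d := hd a hX
    have h1 : (⋃ b ∈ {b | (b < d ∧ e d b ≤ e d a) ∧ TT e r f b ∈ R},
        (TT e r f a ∩ TT e r f b)).Finite := by
      refine Set.Finite.biUnion ((hfinlt (e d a)).subset (fun b hb => hb.1)) ?_
      intro b hb
      exact TT_ad he (hne a b hX hb.2)
    have h2 : (TT e r f a \ (Encodable.encode : W → ℕ) '' cc e r d).Finite := by
      unfold TT
      rw [← Set.image_sdiff Encodable.encode_injective]
      exact (tower1 he had).image _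
    refine (h1.union h2).subset ?_
    rintro x ⟨hx, hxq⟩
    by_cases hxc : x ∈ (Encodable.encode : W → ℕ) '' cc e r d
    · left
      have h3 : x ∉ q := fun h => hxq ⟨h, hxc⟩
      have h4 : ¬ ∀ b, b < d → TT e r f b ∈ R → e d b ≤ e d a → x ∉ TT e r f b :=
        fun h => h3 ⟨a, had, hX, hx, h⟩
      push Not at h4
      obtain ⟨b, hb1, hb2, hb3, hb4⟩ := h4
      exact Set.mem_iUnion₂.2 ⟨b, ⟨⟨hb1, hb3⟩, hb2⟩, hx, hb4⟩
    · right
      exact ⟨hx, hxc⟩
  · intro Y hY
    obtain ⟨b, rfl⟩ := hR hY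
    rcases lt_or_ge b d with hbd | hbd
    · have h1 : (⋃ a ∈ {a | (a < d ∧ e d a ≤ e d b) ∧ TT e r f a ∈ L},
          (TT e r f a ∩ TT e r f b)).Finite := by
        refine Set.Finite.biUnion ((hfinlt (e d b)).subset (fun a ha => ha.1)) ?_
        intro a ha
        exact TT_ad he (hne a b ha.2 hY)
      refine h1.subset ?_
      rintro x ⟨⟨⟨a, ha1, ha2, ha3, ha4⟩, _⟩, hxY⟩
      have h2 : e d a ≤ e d b := by
        by_contra hcon
        exact ha4 b hbd hY (not_le.1 hcon).le hxY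
      exact Set.mem_iUnion₂.2 ⟨a, ⟨⟨ha1, h2⟩, ha2⟩, ha3, hxY⟩
    · have h1 : (TT e r f b ∩ (Encodable.encode : W → ℕ) '' cc e r d).Finite := by
        unfold TT
        rw [← Set.image_inter Encodable.encode_injective]
        exact (tower2 he hbd).image _
      refine h1.subset ?_
      rintro x ⟨⟨_, hxc⟩, hxY⟩
      exact ⟨hxY, hxc⟩

theorem TT_insepInter (he : Coh e) (hf : Unb f) (hr : Function.Injective r) (N : ℕ) :
    InsepInter N (Set.range (TT e r f)) := by
  rintro L hL _ hLc ⟨c, hc1, hc2⟩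
  have hinj := TT_inj (r := r) (f := f) he
  -- levels
  have hlev : ∀ i : Fin N, ∀ a, TT e r f a ∈ L i →
      ∃ k, ∀ x ∈ S e r f a, k ≤ x.1 → Encodable.encode x ∈ c i := by
    intro i a ha
    have h1 := hc1 i _ ha
    have h2 : {x | x ∈ S e r f a ∧ Encodable.encode x ∉ c i}.Finite := by
      have h3 : ((Encodable.encode : W → ℕ) '' {x | x ∈ S e r f a ∧ Encodable.encode x ∉ c i}).Finite := by
        refine h1.subset ?_
        rintro _ ⟨x, hx, rfl⟩
        exact ⟨⟨x, hx.1, rfl⟩, hx.2⟩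
      exact h3.of_finite_image Encodable.encode_injective.injOn
    obtain ⟨M, hM⟩ := (h2.image (fun x : W => x.1)).bddAbove
    refine ⟨M + 1, fun x hx hk => ?_⟩
    by_contra hcon
    have := hM ⟨x, ⟨hx, hcon⟩, rfl⟩
    simp only at this
    omega
  have hunc : ∀ i : Fin N, ¬ {a | TT e r f a ∈ L i}.Countable := by
    intro i hcount
    have h1 : (L i).Countable := by
      refine (hcount.image (TT e r f)).mono ?_
      intro X hX
      obtain ⟨a, rfl⟩ := hL i hX
      exact ⟨a, hX, rfl⟩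
    have h2 := (Cardinal.le_aleph0_iff_set_countable).2 h1
    rw [hLc i] at h2
    exact absurd h2 (not_le.2 Cardinal.aleph0_lt_aleph_one)
  have hk : ∀ i : Fin N, ∃ k, ¬ {a | TT e r f a ∈ L i ∧
      ∀ x ∈ S e r f a, k ≤ x.1 → Encodable.encode x ∈ c i}.Countable := by
    intro i
    by_contra hcon
    push Not at hcon
    apply hunc i
    refine (Set.countable_iUnion hcon).mono ?_
    intro a ha
    obtain ⟨k, hk⟩ := hlev i a ha
    exact Set.mem_iUnion.2 ⟨k, ha, hk⟩
  choose k hk using hk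
  -- the level of the finite set
  have h3 : {x : W | Encodable.encode x ∈ ⋂ i, c i}.Finite := by
    have h4 : ((Encodable.encode : W → ℕ) '' {x : W | Encodable.encode x ∈ ⋂ i, c i}).Finite := by
      refine hc2.subset ?_
      rintro _ ⟨x, hx, rfl⟩
      exact hx
    exact h4.of_finite_image Encodable.encode_injective.injOn
  obtain ⟨M, hM⟩ := (h3.image (fun x : W => x.1)).bddAbove
  let X : ℕ → Set W1 := fun i => if h : i < N then {a | TT e r f a ∈ L ⟨i, h⟩ ∧
      ∀ x ∈ S e r f a, k ⟨i, h⟩ ≤ x.1 → Encodable.encode x ∈ c ⟨i, h⟩} else Set.univ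
  have hX : ∀ i, ¬ (X i).Countable := by
    intro i
    by_cases h : i < N
    · simp only [X, h, dif_pos]
      exact hk ⟨i, h⟩
    · simp only [X, h, dif_neg, not_false_eq_true]
      exact W1_uncountable
  obtain ⟨x, hx1, hx2⟩ := key he hf hr N X hX (max (M + 1) ((Finset.univ : Finset (Fin N)).sup k))
  have hxM : M + 1 ≤ x.1 := (le_max_left _ _).trans hx1
  have hxk : ∀ i : Fin N, k i ≤ x.1 := fun i =>
    (Finset.le_sup (f := k) (Finset.mem_univ i)).trans ((le_max_right _ _).trans hx1)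
  have h5 : Encodable.encode x ∈ ⋂ i, c i := by
    rw [Set.mem_iInter]
    intro i
    obtain ⟨a, ha, hxa⟩ := hx2 i.1 i.2
    simp only [X, i.2, dif_pos] at ha
    exact ha.2 x hxa (hxk i)
  have := hM ⟨x, h5, rfl⟩
  simp only at this
  omega

/-- a separated tuple is separated in the second sense (at least two families) -/
theorem sepInter_of_separated {n : ℕ} (hn : 2 ≤ n) {L : Fin n → Set (Set ℕ)} (h : Separated n L) :
    SepInter n L := by
  obtain ⟨c, hc⟩ := h
  let i0 : Fin n := ⟨0, by omega⟩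
  let i1 : Fin n := ⟨1, by omega⟩
  have hne : i1 ≠ i0 := by
    intro h
    have := congrArg Fin.val h
    simp [i0, i1] at this
  refine ⟨fun i => if i = i0 then c i0 else (c i0)ᶜ, ?_, ?_⟩
  · intro i X hX
    by_cases hi : i = i0
    · subst hi
      simp only [if_true]
      exact (hc i0).1 X hX
    · simp only [hi, if_false]
      have h1 := (hc i0).2 i hi X hX
      refine h1.subset ?_
      rintro x ⟨hx, hxc⟩
      exact ⟨not_not.1 hxc, hx⟩
  · refine Set.finite_empty.subset ?_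
    intro x hx
    rw [Set.mem_iInter] at hx
    have h0 := hx i0
    have h1 := hx i1
    simp only [if_true] at h0
    simp only [hne, if_false] at h1
    exact h1 h0

theorem insep_of_inter {n : ℕ} (hn : 2 ≤ n) {A : Set (Set ℕ)} (h : InsepInter n A) : Insep n A :=
  fun L h1 h2 h3 h4 => h L h1 h2 h3 (sepInter_of_separated hn h4)

/-- `𝔟 = ℵ₁`: one Jones family which is inseparable in all senses -/
theorem case_b (hB : ¬ BddAll) : ∃ A : Set (Set ℕ), #A = ℵ₁ ∧ ADF A ∧ JonesF A ∧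
    ∀ n, InsepInter n A := by
  obtain ⟨e, he⟩ := exists_coh
  obtain ⟨f, hf⟩ := exists_unb he hB
  obtain ⟨r, hr⟩ : ∃ r : W1 → Set ℕ, Function.Injective r := by
    have h1 : #W1 ≤ #(Set ℕ) := by
      rw [Cardinal.mk_toType, Cardinal.card_ord, Cardinal.mk_set, Cardinal.mk_nat,
        Cardinal.two_power_aleph0]
      exact Cardinal.aleph_one_le_continuum
    obtain ⟨i⟩ := Cardinal.le_def _ _ |>.1 h1
    exact ⟨i, i.injective⟩
  exact ⟨Set.range (TT e r f), TT_card he, TT_ADF he, TT_jones he, fun n => TT_insepInter he hf hr n⟩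

end Pool.Agent.Q213.JF
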